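import Mathlib

set_option autoImplicit false

open Finset

namespace Pool.Agent.H.MP_e5a0e3_pr

def cb (m : ℕ) (z : ℤ) : ℝ := if 0 ≤ z then m.choose z.toNat else 0

theorem cb_succ (m : ℕ) (z : ℤ) : cb (m + 1) z = cb m z + cb m (z - 1) := by
  rcases lt_trichotomy z 0 with h | rfl | h
  · simp [cb, h.not_ge, show ¬ 1 ≤ z by omega]
  · simp [cb]
  · obtain ⟨k, rfl⟩ : ∃ k : ℕ, z = k + 1 := ⟨(z - 1).toNat, by omega⟩
    simp [cb, h.le, Nat.choose_succ_succ', add_comm]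

noncomputable def b (t : ℕ) (z : ℤ) : ℝ := cb (2 * t) (t + z) / 4 ^ t

theorem b_nonneg (t : ℕ) (z : ℤ) : 0 ≤ b t z := by
  unfold b cb; split_ifs <;> positivity

theorem b_succ (t : ℕ) (z : ℤ) :
    ∑ u : Fin 2, ∑ v : Fin 2, b t (z + ((u : ℕ) - (v : ℕ))) = 4 * b (t + 1) z := by
  simp only [b, Fin.sum_univ_two, mul_add, mul_one, cb_succ, show 2 * t + 2 = 2 * t + 1 + 1 from rfl,
    Fin.val_zero, Fin.val_one]
  push_cast
  simp only [show (t : ℤ) + 1 + z - 1 = t + z by ring, show (t : ℤ) + (z + (0 - 0)) = t + z by ring,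
    show (t : ℤ) + (z + (0 - 1)) = t + z - 1 by ring, show (t : ℤ) + (z + (1 - 0)) = t + 1 + z by ring,
    show (t : ℤ) + (z + (1 - 1)) = t + z by ring]
  ring

theorem b_zero (z : ℤ) : b 0 z = if z = 0 then 1 else 0 := by
  rcases lt_trichotomy z 0 with h | rfl | h
  · simp [b, cb, h.not_ge, h.ne]
  · simp [b, cb]
  · simp [b, cb, h.le, h.ne', Nat.choose_eq_zero_iff, h]

theorem b_sq (t : ℕ) : b t 0 ^ 2 * (2 * t + 1) ≤ 1 := by
  have h : ∀ t, b t 0 = t.centralBinom / 4 ^ t := fun t => by simp [b, cb, Nat.centralBinom]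
  induction t with
  | zero => simp [h]
  | succ t ih =>
    have h1 : ((t : ℝ) + 1) * (t + 1).centralBinom = 2 * (2 * t + 1) * t.centralBinom := by
      exact_mod_cast Nat.succ_mul_centralBinom_succ t
    have h2 : b (t + 1) 0 = b t 0 * ((2 * t + 1) / (2 * t + 2)) := by
      rw [h, h, pow_succ]; field_simp; linarith
    rw [h2, mul_pow, mul_assoc]
    refine le_trans (mul_le_mul_of_nonneg_left ?_ (sq_nonneg _)) ih
    rw [div_pow, div_mul_eq_mul_div, div_le_iff₀ (by positivity)]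
    push_cast
    nlinarith [t.cast_nonneg (α := ℝ)]

noncomputable def q (t : ℕ) (y : Fin 6 → ℤ) : ℝ := ∏ j, b t (y j)

/-- binary digits of a direction -/
def bt (i : Fin (2 ^ 6)) : Fin 6 → ℤ := fun j => (finFunctionFinEquiv.symm i j : ℕ)

theorem q_succ (t : ℕ) (y : Fin 6 → ℤ) :
    ∑ i, ∑ k, q t (y + (bt i - bt k)) = 4096 * q (t + 1) y := by
  rw [← finFunctionFinEquiv.sum_comp]
  simp only [← (finFunctionFinEquiv (m := 2) (n := 6)).sum_comp, q, bt, Pi.add_apply, Pi.sub_apply,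
    Equiv.symm_apply_apply]
  rw [sum_congr rfl fun u _ => (Fintype.prod_sum fun (j : Fin 6) (v : Fin 2) =>
    b t (y j + ((u j : ℕ) - (v : ℕ)))).symm, ← Fintype.prod_sum fun (j : Fin 6) (u : Fin 2) => ∑ v : Fin 2, b t (y j + ((u : ℕ) - (v : ℕ)))]
  simp only [b_succ, prod_mul_distrib]
  norm_num

theorem q_zero (y : Fin 6 → ℤ) : q 0 y = if y = 0 then 1 else 0 := by
  simp [q, b_zero, prod_ite_zero, funext_iff]

theorem q_sum (n : ℕ) : ∑ t ∈ range n, q (t + 1) 0 ≤ 1 / 8 := by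
  suffices ∑ t ∈ range n, q (t + 1) 0 ≤ 1 / 8 - 1 / (8 * (n + 1)) from
    this.trans (sub_le_self _ (by positivity))
  induction n with
  | zero => simp
  | succ n ih =>
    have h1 := b_sq (n + 1)
    have h2 : q (n + 1) 0 = (b (n + 1) 0 ^ 2) ^ 3 := by simp [q, ← pow_mul]
    have h3 : b (n + 1) 0 ^ 2 ≤ 1 / (2 * n + 3) := by
      rw [le_div_iff₀ (by positivity)]; push_cast at h1; linarith
    have h4 : (1 / (2 * n + 3 : ℝ)) ^ 3 ≤ 1 / (8 * (n + 1)) - 1 / (8 * (n + 1 + 1)) := by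
      rw [div_sub_div _ _ (by positivity) (by positivity), one_div_pow,
        div_le_div_iff₀ (by positivity) (by positivity)]
      have := n.cast_nonneg (α := ℝ)
      nlinarith [pow_nonneg this 3, pow_nonneg this 2]
    rw [sum_range_succ, h2]
    push_cast
    linarith [pow_le_pow_left₀ (sq_nonneg _) h3 3]

noncomputable def w (n : ℕ) (y : Fin 6 → ℤ) (γ δ : ℕ → Fin (2 ^ 6)) : ℝ :=
  ∏ t ∈ range n, if y + ∑ s ∈ range t, (bt (γ s) - bt (δ s)) = 0 then 5 else 1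

/-- extension of a finite word -/
def ex {n : ℕ} (γ : Fin n → Fin (2 ^ 6)) (s : ℕ) : Fin (2 ^ 6) := if h : s < n then γ ⟨s, h⟩ else 0

theorem w_cons {n : ℕ} (y : Fin 6 → ℤ) (i k : Fin (2 ^ 6)) (γ δ : Fin n → Fin (2 ^ 6)) :
    w (n + 1) y (ex (Fin.cons i γ : Fin (n + 1) → _)) (ex (Fin.cons k δ : Fin (n + 1) → _)) =
      (if y = 0 then 5 else 1) * w n (y + (bt i - bt k)) (ex γ) (ex δ) := by
  have h : ∀ (i : Fin (2 ^ 6)) (γ : Fin n → Fin (2 ^ 6)) s,
      ex (Fin.cons i γ : Fin (n + 1) → _) (s + 1) = ex γ s := fun i γ s => by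
    by_cases h : s < n
    · simp only [ex, h, Nat.succ_lt_succ h, dif_pos]; rfl
    · simp [ex, h]
  have h0 : ∀ (i : Fin (2 ^ 6)) (γ : Fin n → Fin (2 ^ 6)),
      ex (Fin.cons i γ : Fin (n + 1) → _) 0 = i := fun i γ => by simp [ex]
  rw [w, prod_range_succ', mul_comm, w]
  simp only [sum_range_succ', h, h0, sum_range_zero, add_zero, add_comm (∑ _ ∈ _, _), add_assoc]

theorem w_sum (n : ℕ) (y : Fin 6 → ℤ) : ∑ γ : Fin n → Fin (2 ^ 6), ∑ δ : Fin n → Fin (2 ^ 6),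
    w n y (ex γ) (ex δ) ≤ 4096 ^ n * (1 + 8 * ∑ t ∈ range n, q t y) := by
  induction n generalizing y with
  | zero => simp [w]
  | succ n ih =>
    have h0 : ∀ F : (Fin (n + 1) → Fin (2 ^ 6)) → ℝ, ∑ γ, F γ =
        ∑ i, ∑ γ : Fin n → Fin (2 ^ 6), F (Fin.cons i γ) := fun F => by
      rw [← (Fin.consEquiv fun _ => Fin (2 ^ 6)).sum_comp, Fintype.sum_prod_type]; rfl
    simp only [h0, w_cons, ← mul_sum]
    have h1 : ∑ i, ∑ γ : Fin n → Fin (2 ^ 6), ∑ k, ∑ δ : Fin n → Fin (2 ^ 6),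
        w n (y + (bt i - bt k)) (ex γ) (ex δ) ≤
        4096 ^ (n + 1) * (1 + 8 * ∑ t ∈ range n, q (t + 1) y) := by
      refine (sum_le_sum fun i _ => sum_comm.trans_le (sum_le_sum fun k _ => ih _)).trans_eq ?_
      simp only [← mul_sum, sum_add_distrib, sum_const, card_univ, Fintype.card_fin,
        sum_comm (s := univ) (t := range n), q_succ]
      ring
    rw [sum_range_succ', q_zero]
    split_ifs with h
    · have := q_sum n
      subst h
      nlinarith [pow_pos (show (0 : ℝ) < 4096 by norm_num) (n + 1)]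
    · simpa using h1

theorem w_sum0 (n : ℕ) : ∑ γ : Fin n → Fin (2 ^ 6), ∑ δ : Fin n → Fin (2 ^ 6),
    w n 0 (ex γ) (ex δ) ≤ 4096 ^ n * 10 := by
  refine (w_sum n 0).trans (mul_le_mul_of_nonneg_left ?_ (by positivity))
  rcases n with _ | n
  · simp
  · rw [sum_range_succ', q_zero, if_pos rfl]; linarith [q_sum n]

end Pool.Agent.H.MP_e5a0e3_pr
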