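import Pool.Agent.H.MP_e5a0e3_pr.A

set_option autoImplicit false

open Finset MeasureTheory ProbabilityTheory Filter Topology

namespace Pool.Agent.H.MP_e5a0e3_pr

theorem sm {Ω ι : Type*} [MeasurableSpace Ω] [Fintype ι] (μ : Measure Ω) [IsProbabilityMeasure μ]
    (G : ι → Set Ω) (h : ∀ i, MeasurableSet (G i)) (l : ℝ) :
    2 * l * ∑ i, μ.real (G i) - l ^ 2 * ∑ i, ∑ j, μ.real (G i ∩ G j) ≤ μ.real (⋃ i, G i) := by
  have hi : ∀ s, MeasurableSet s → Integrable (s.indicator (1 : Ω → ℝ)) μ := fun s hs =>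
    (integrable_const _).indicator hs
  have h2 := fun i j => hi _ ((h i).inter (h j))
  simp only [← integral_indicator_one (h _), ← integral_indicator_one ((h _).inter (h _)),
    ← integral_indicator_one (MeasurableSet.iUnion h), ← integral_finset_sum _ fun i _ => hi _ (h i),
    ← integral_finset_sum _ fun j _ => h2 _ j,
    ← integral_finset_sum _ fun i _ => integrable_finset_sum _ fun j _ => h2 i j,
    ← integral_const_mul]
  have h3 := (integrable_finset_sum univ fun i _ => hi _ (h i)).const_mul (2 * l)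
  have h4 := (integrable_finset_sum univ fun i _ =>
    integrable_finset_sum univ fun j _ => h2 i j).const_mul (l ^ 2)
  rw [← integral_sub h3 h4]
  refine integral_mono (h3.sub h4) (hi _ (.iUnion h)) fun x => ?_
  simp only [Set.inter_indicator_one, Pi.mul_apply, ← sum_mul_sum]
  by_cases hx : x ∈ ⋃ i, G i
  · rw [Set.indicator_of_mem hx, Pi.one_apply]
    nlinarith [sq_nonneg (1 - l * ∑ i, (G i).indicator (1 : Ω → ℝ) x)]
  · rw [Set.indicator_of_notMem hx, sum_eq_zero fun i _ =>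
      Set.indicator_of_notMem (fun h => hx (Set.mem_iUnion.2 ⟨i, h⟩)) _]
    simp

variable {d : ℕ}

/-- neighbours -/
def nbr (x : Fin d → ℤ) : Finset (Fin d → ℤ) :=
  univ.image fun p : Fin d × Bool => x + Pi.single p.1 (if p.2 then 1 else -1)

theorem card_nbr (x : Fin d → ℤ) : (nbr x).card = d * 2 := by
  rw [nbr, card_image_of_injective _ ?_]
  · simp
  rintro ⟨i, a⟩ ⟨j, c⟩ h
  have := congrFun (add_left_cancel h) i
  rcases eq_or_ne i j with rfl | hij
  · cases a <;> cases c <;> simp_all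
  · cases a <;> simp [hij] at this

theorem mem_nbr {x y : Fin d → ℤ} : y ∈ nbr x ↔ ∑ i, |y i - x i| = 1 := by
  simp only [nbr, mem_image, mem_univ, true_and]
  constructor
  · rintro ⟨⟨i, a⟩, rfl⟩
    rw [sum_eq_single i (fun j _ h => by simp [h]) (by simp)]
    cases a <;> simp
  · intro h
    obtain ⟨i, -, hi⟩ := exists_ne_zero_of_sum_ne_zero (h.trans_ne one_ne_zero)
    rw [← add_sum_erase _ _ (mem_univ i)] at h
    have h1 : 0 ≤ ∑ j ∈ univ.erase i, |y j - x j| := sum_nonneg fun _ _ => abs_nonneg _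
    have h2 := abs_nonneg (y i - x i)
    have h3 := (sum_eq_zero_iff_of_nonneg fun _ _ => abs_nonneg _).1
      (show ∑ j ∈ univ.erase i, |y j - x j| = 0 by omega)
    refine ⟨(i, decide (y i - x i = 1)), funext fun j => ?_⟩
    rcases eq_or_ne j i with rfl | hj
    · simp only [Pi.add_apply, Pi.single_eq_same, decide_eq_true_eq]
      rcases abs_cases (y j - x j) with h4 | h4 <;> split_ifs <;> omega
    · have := abs_eq_zero.1 (h3 j (by simp [hj]))
      simp [hj]; omega

noncomputable def nu (k : ℕ) (x : Fin d → ℤ) : Measure (Finset (Fin d → ℤ)) :=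
  uniformOn ((nbr x).powersetCard k : Set (Finset (Fin d → ℤ)))

instance (x : Fin d → ℤ) : IsProbabilityMeasure (nu d x) :=
  isProbabilityMeasure_uniformOn (finite_toSet _) (by
    rw [coe_nonempty, powersetCard_nonempty, card_nbr]; omega)

noncomputable def p (d : ℕ) : ℝ := (d * 2 - 2).choose (d - 2) / (d * 2).choose d

theorem nu_p (hd : 2 ≤ d) {x : Fin d → ℤ} {R : Finset (Fin d → ℤ)} (h : R ⊆ nbr x)
    (h2 : R.card = 2) : (nu d x).real {s | R ⊆ s} = p d := by
  rw [nu, Measure.real, ← uniformOn_inter_self (finite_toSet _),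
    show (((nbr x).powersetCard d : Finset _) : Set (Finset (Fin d → ℤ))) ∩ {s | R ⊆ s} =
      (((nbr x).powersetCard d).filter (R ⊆ ·) : Finset _) by ext; simp, uniformOn_apply_finset,
    inter_eq_right.2 (filter_subset _ _), card_filter_powersetCard_subset _ _ _ h (h2 ▸ hd),
    card_powersetCard, card_nbr, h2]
  simp [p]

theorem meas (x : Fin d → ℤ) (R : Finset (Fin d → ℤ)) :
    MeasurableSet {s : Finset (Fin d → ℤ) | R ⊆ s} := (Set.to_countable _).measurableSet

theorem cyl (hd : 2 ≤ d) (F : Finset (Fin d → ℤ)) (R : (Fin d → ℤ) → Finset (Fin d → ℤ))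
    (h : ∀ x ∈ F, R x ⊆ nbr x ∧ (R x).card = 2) :
    (Measure.infinitePi (nu d)).real (Set.pi F fun x => {s | R x ⊆ s}) = p d ^ F.card := by
  rw [Measure.real, Measure.infinitePi_pi _ fun x _ => meas x _, ENNReal.toReal_prod,
    ← prod_const]
  exact prod_congr rfl fun x hx => nu_p hd (h x hx).1 (h x hx).2

theorem p_ge' (m : ℕ) (hm : 1 ≤ m) : 1 / 5 ≤ p (m + 2) := by
  have h3 : (0 : ℝ) < Nat.choose (2 * m + 2 + 1 + 1) (m + 1 + 1) := by
    exact_mod_cast Nat.choose_pos (by omega)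
  have h4 : (2 * m + 2 + 1 : ℝ) * Nat.choose (2 * m + 2) m = Nat.choose (2 * m + 2 + 1) (m + 1) * (m + 1) := by
    exact_mod_cast Nat.add_one_mul_choose_eq (2 * m + 2) m
  have h5 : (2 * m + 2 + 1 + 1 : ℝ) * Nat.choose (2 * m + 2 + 1) (m + 1) =
      Nat.choose (2 * m + 2 + 1 + 1) (m + 1 + 1) * (m + 1 + 1) := by
    exact_mod_cast Nat.add_one_mul_choose_eq (2 * m + 2 + 1) (m + 1)
  rw [p, show (m + 2) * 2 = 2 * m + 2 + 1 + 1 by ring, le_div_iff₀ h3]
  change _ ≤ (Nat.choose (2 * m + 2) m : ℝ)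
  have h6 : (1 : ℝ) ≤ m := by exact_mod_cast hm
  have h7 : 2 * (Nat.choose (2 * m + 2 + 1) (m + 1) : ℝ) = Nat.choose (2 * m + 2 + 1 + 1) (m + 1 + 1) :=
    mul_right_cancel₀ (show (m : ℝ) + 1 + 1 ≠ 0 by positivity) (by linarith)
  refine le_of_mul_le_mul_left ?_ (show (0 : ℝ) < 2 * m + 2 + 1 by positivity)
  nlinarith

theorem p_ge : 1 / 5 ≤ p (2 ^ 6) := p_ge' 62 (by norm_num)

/-- oriented paths -/
def pos (γ : ℕ → Fin d) (t : ℕ) : Fin d → ℤ := ∑ s ∈ range t, Pi.single (γ s) 1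

theorem lev (γ : ℕ → Fin d) (t : ℕ) : ∑ i, pos γ t i = t := by
  simp only [pos, Finset.sum_apply]
  rw [sum_comm]
  simp

theorem pos_inj {γ δ : ℕ → Fin d} {s t : ℕ} (h : pos γ s = pos δ t) : s = t := by
  have := lev γ s
  rw [h, lev] at this
  omega

/-- the two neighbours that have to be chosen -/
def rq (γ : ℕ → Fin d) (t : ℕ) : Finset (Fin d → ℤ) :=
  {pos γ t + Pi.single (γ t) 1, pos γ t + Pi.single (γ (t - 1)) (-1)}

theorem rq_ok (γ : ℕ → Fin d) (t : ℕ) : rq γ t ⊆ nbr (pos γ t) ∧ (rq γ t).card = 2 := by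
  refine ⟨insert_subset (mem_image.2 ⟨(γ t, true), mem_univ _, rfl⟩)
    (singleton_subset_iff.2 (mem_image.2 ⟨(γ (t - 1), false), mem_univ _, rfl⟩)),
    card_pair fun h => ?_⟩
  have := congrFun (add_left_cancel h) (γ t)
  simp [Pi.single_apply] at this
  split_ifs at this <;> omega

/-- the path is open up to time `n` -/
def Good (n : ℕ) (γ : ℕ → Fin d) : Set ((Fin d → ℤ) → Finset (Fin d → ℤ)) :=
  {N | ∀ t < n, rq γ t ⊆ N (pos γ t)}

theorem good_eq (n : ℕ) (γ : ℕ → Fin d) : Good n γ =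
    Set.pi ((range n).image (pos γ)) fun x => {s | rq γ (∑ i, x i).toNat ⊆ s} := by
  ext N; simp [Good, lev]

theorem good_meas (n : ℕ) (γ : ℕ → Fin d) : MeasurableSet (Good n γ) := by
  rw [good_eq]; exact .pi (Set.to_countable _) fun x _ => meas x _

theorem card_im (n : ℕ) (γ : ℕ → Fin d) : ((range n).image (pos γ)).card = n := by
  rw [card_image_of_injective _ fun _ _ => pos_inj, card_range]

theorem good_p (hd : 2 ≤ d) (n : ℕ) (γ : ℕ → Fin d) :
    (Measure.infinitePi (nu d)).real (Good n γ) = p d ^ n := by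
  rw [good_eq, cyl hd, card_im]
  simpa [lev] using fun t _ => rq_ok γ t

theorem good_pp (n : ℕ) (γ δ : ℕ → Fin (2 ^ 6)) :
    (Measure.infinitePi (nu (2 ^ 6))).real (Good n γ ∩ Good n δ) ≤
      p (2 ^ 6) ^ (2 * n) * w n 0 γ δ := by
  classical
  set X := (range n).image (pos γ) with hX
  set Y := (range n).image (pos δ) with hY
  have h1 := cyl (by norm_num) (X ∪ Y)
    (fun x => if x ∈ X then rq γ (∑ i, x i).toNat else rq δ (∑ i, x i).toNat) fun x hx => by
      split_ifs with h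
      · obtain ⟨t, -, rfl⟩ := mem_image.1 h
        simpa [lev] using rq_ok γ t
      · obtain ⟨t, -, rfl⟩ := mem_image.1 ((mem_union.1 hx).resolve_left h)
        simpa [lev] using rq_ok δ t
  refine (measureReal_mono (fun N hN x hx => ?_)).trans (h1.trans_le ?_)
  · rw [good_eq, good_eq] at hN
    simp only [Set.mem_ofPred_eq]
    split_ifs with h
    · exact hN.1 x h
    · exact hN.2 x ((mem_union.1 hx).resolve_left h)
  have h2 : (X ∪ Y).card + (X ∩ Y).card = 2 * n := by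
    rw [card_union_add_card_inter, card_im, card_im, two_mul]
  have h3 : 5 ^ (X ∩ Y).card ≤ w n 0 γ δ := by
    rw [w, prod_ite, prod_const_one, mul_one, prod_const]
    refine pow_le_pow_right₀ (by norm_num) ((card_le_card fun x hx => ?_).trans
      (card_image_le (f := pos γ)))
    obtain ⟨t, h4, rfl⟩ := mem_image.1 (mem_inter.1 hx).1
    obtain ⟨s, -, h5⟩ := mem_image.1 (mem_inter.1 hx).2
    obtain rfl := pos_inj h5
    refine mem_image_of_mem _ (mem_filter.2 ⟨h4, ?_⟩)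
    have h6 : ∀ γ : ℕ → Fin (2 ^ 6), ∑ r ∈ range s, bt (γ r) = ∑ i, pos γ s i • bt i := fun γ => by
      simp only [pos, Finset.sum_apply, sum_smul]
      rw [sum_comm]
      simp [Pi.single_apply]
    rw [sum_sub_distrib, h6, h6, h5, sub_self, add_zero]
  have h4 : 0 ≤ p (2 ^ 6) := le_trans (by norm_num) p_ge
  rw [← h2, pow_add, mul_assoc]
  refine le_mul_of_one_le_right (pow_nonneg h4 _) (le_trans ?_
    (mul_le_mul_of_nonneg_left h3 (pow_nonneg h4 _)))
  rw [← mul_pow]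
  exact one_le_pow₀ ((div_le_iff₀ (by norm_num)).1 p_ge)

theorem exn (n : ℕ) : 1 / 10 ≤ (Measure.infinitePi (nu (2 ^ 6))).real
    (⋃ γ : Fin n → Fin (2 ^ 6), Good n (ex γ)) := by
  have h0 : 0 < p (2 ^ 6) := lt_of_lt_of_le (by norm_num) p_ge
  have h1 : ∑ γ : Fin n → Fin (2 ^ 6), ∑ δ : Fin n → Fin (2 ^ 6), (Measure.infinitePi
      (nu (2 ^ 6))).real (Good n (ex γ) ∩ Good n (ex δ)) ≤ (64 ^ n * p (2 ^ 6) ^ n) ^ 2 * 10 := by
    refine (sum_le_sum fun γ _ => sum_le_sum fun δ _ => good_pp n _ _).trans ?_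
    simp only [← mul_sum]
    refine (mul_le_mul_of_nonneg_left (w_sum0 n) (by positivity)).trans_eq ?_
    generalize p (2 ^ 6) = P
    rw [show (4096 : ℝ) = 64 * 64 by norm_num, mul_pow]; ring
  refine le_trans ?_ (sm _ _ (fun _ => good_meas _ _) (1 / (10 * (64 ^ n * p (2 ^ 6) ^ n))))
  refine le_trans (le_of_eq ?_) (sub_le_sub_left (mul_le_mul_of_nonneg_left h1 (sq_nonneg _)) _)
  simp only [good_p (show 2 ≤ 2 ^ 6 by norm_num), sum_const, card_univ, Fintype.card_fun,
    Fintype.card_fin, nsmul_eq_mul]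
  generalize p (2 ^ 6) = P at h0
  push_cast
  field_simp
  norm_num

theorem main : 0 < Measure.infinitePi (nu (d := 2 ^ 6) (2 ^ 6)) {N | ∃ γ, ∀ t, rq γ t ⊆ N (pos γ t)} := by
  set E : ℕ → Set ((Fin (2 ^ 6) → ℤ) → Finset (Fin (2 ^ 6) → ℤ)) := fun n =>
    ⋃ m ≥ n, ⋃ γ : Fin m → Fin (2 ^ 6), Good m (ex γ)
  have h1 := tendsto_measure_iInter_atTop (μ := Measure.infinitePi (nu (2 ^ 6))) (s := E)
    (fun n => (MeasurableSet.iUnion fun m => .iUnion fun _ => .iUnion fun _ =>
      good_meas _ _).nullMeasurableSet)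
    (fun a b h => Set.biUnion_subset_biUnion_left fun m hm => h.trans hm) ⟨0, measure_ne_top _ _⟩
  refine ((ENNReal.ofReal_pos.2 (by norm_num : (0 : ℝ) < 1 / 10)).trans_le (ge_of_tendsto' h1
    fun n => ?_)).trans_le (measure_mono fun N hN => ?_)
  · exact (ENNReal.ofReal_le_of_le_toReal (exn n)).trans
      (measure_mono (Set.subset_biUnion_of_mem (u := fun m => ⋃ γ : Fin m → Fin (2 ^ 6),
        Good m (ex γ)) (le_refl n)))
  simp only [E, Set.mem_iInter, Set.mem_iUnion] at hN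
  choose m h2 γ h3 using hN
  obtain ⟨δ, φ, h4, h5⟩ := SeqCompactSpace.tendsto_subseq fun n => ex (γ n)
  refine ⟨δ, fun t => ?_⟩
  have h6 : ∀ s, ∀ᶠ n in atTop, ex (γ (φ n)) s = δ s := fun s => by
    simpa using tendsto_pi_nhds.1 h5 s
  obtain ⟨n, h7, h8⟩ := (((eventually_all_finset (range (t + 1))).2 fun s _ => h6 s).and
    (h4.tendsto_atTop.eventually (eventually_gt_atTop t))).exists
  have h9 : pos (ex (γ (φ n))) t = pos δ t :=
    sum_congr rfl fun s hs => by rw [h7 s (by simp at hs ⊢; omega)]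
  have := h3 (φ n) t (h8.trans_le (h2 _))
  rwa [rq, h9, h7 t (by simp), h7 (t - 1) (by simp)] at this

end Pool.Agent.H.MP_e5a0e3_pr
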